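import Pool.Agent.H34.TAM.Stmts

/-!
Board tam (MP_286349_an), row JON, helper38: the answer for free blocks gives the answer for the tuple.
-/

set_option autoImplicit false

noncomputable section

namespace Pool.TAM

open Pool.CGR Pool.CGS

namespace JONh

theorem cp_sum {α A : Type} [DecidableEq α] [Ring A] [Algebra ℂ A] {O : Type} (x : α → A) (i : α)
    (hadd : ∀ P Q : List α →₀ ℂ, cp x i (P + Q) = cp x i P + cp x i Q) (s : Finset O)
    (H : O → (List α →₀ ℂ)) : cp x i (∑ o ∈ s, H o) = ∑ o ∈ s, cp x i (H o) := by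
  classical
  induction s using Finset.induction_on with
  | empty => simp [cp]
  | insert a s ha ih => rw [Finset.sum_insert ha, Finset.sum_insert ha, hadd, ih]

end JONh

theorem jon_thm (hE : EXJStmt) (hL : LTPStmt) : JONStmt := by
  intro m A _ τ hτ x c hx hB hY ε hε
  choose H hH1 hH2 using fun o => hY o ε hε
  obtain ⟨T1, T2, T3, T4, T5⟩ := two_thm A τ hτ
  refine ⟨∑ o, H o, fun i P => ?_⟩
  have hadd : ∀ P Q : List (Fin m) →₀ ℂ, cp x i (P + Q) = cp x i P + cp x i Q :=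
    fun P Q => (hL m A x Set.univ).2.2.2 i P Q
  have hcp : cp x i (∑ o, H o) = cp x i (H (c i)) := by
    rw [JONh.cp_sum x i hadd]
    refine Finset.sum_eq_single (c i) (fun o _ ho => ?_) (fun h => absurd (Finset.mem_univ _) h)
    exact (hL m A x (c ⁻¹' {o})).2.2.1 i (H o) (hH1 o) (fun h => ho (by simpa using h.symm))
  obtain ⟨R, hR1, hR2⟩ := (hL m A x (c ⁻¹' {c i})).1 i (H (c i)) (hH1 (c i))
  obtain ⟨P', h1, h2, h3⟩ := hE m A τ hτ x c hB (c i) P
  obtain ⟨R', hR'1, hR'2⟩ := (hL m A x (c ⁻¹' {c i})).2.1 hx P' h1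
  have hn : n2 τ (pe x P') ≤ n2 τ (pe x P) := by
    have e1 : ((n2 τ (pe x P') ^ 2 : ℝ) : ℂ) = τ (pe x P * star (pe x P')) := by
      rw [← T4, ← hR'2, h2 R' hR'1]
    have e2 : ‖τ (pe x P * star (pe x P'))‖ ≤ n2 τ (pe x P) * n2 τ (pe x P') := by
      refine (T1 _ _).trans_eq ?_
      rw [(T3 (pe x P')).2.2.1]
    rw [← e1, Complex.norm_real, Real.norm_eq_abs, abs_of_nonneg (sq_nonneg _)] at e2
    have h0 := (T3 (pe x P')).1
    rcases h0.eq_or_lt with h | h
    · rw [← h]; exact (T3 (pe x P)).1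
    · nlinarith
  have key : dp τ x i P - τ (cp x i (∑ o, H o) * pe x P) =
      dp τ x i P' - τ (cp x i (H (c i)) * pe x P') := by
    rw [hcp, h3 i rfl, ← hR2, hτ.comm (pe x R) (pe x P), hτ.comm (pe x R) (pe x P'), h2 R hR1]
  rw [key]
  exact (hH2 (c i) i rfl P' h1).trans (mul_le_mul_of_nonneg_left hn hε.le)

end Pool.TAM
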